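import Pool.Agent.H.MP_23f360.A

namespace Pool.Agent.Results.MP_23f360_gt.Main

open Cardinal Set Topology

/-- d-independence of an abelian topological group. -/
def DInd (G : Type) [AddCommGroup G] [TopologicalSpace G] : Prop :=
  Nontrivial G ∧ ∀ S : AddSubgroup G, #S < 𝔠 →
    ∃ D : AddSubgroup G, (D : Set G).Countable ∧ Dense (D : Set G) ∧ S ⊓ D = ⊥

open Pool.Agent.H.MP_23f360

theorem result : ∃ (G : Type) (_ : AddCommGroup G) (_ : TopologicalSpace G),
    IsTopologicalAddGroup G ∧ T2Space G ∧ TopologicalSpace.SeparableSpace G ∧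
      DInd (G × G) ∧ ¬ DInd G := by
  classical
  obtain ⟨p, e, he, hp, hu⟩ := enu
  obtain ⟨χ, c1, c2⟩ := sys p e he hp
  obtain ⟨G, gA, gM, ⟨φ⟩⟩ : ∃ (G : Type) (_ : AddCommGroup G) (_ : Module F G),
      Nonempty (G ≃ₗ[F] (V × V) × (J →₀ V)) :=
    ⟨(V × V) × (J →₀ V), inferInstance, inferInstance, ⟨LinearEquiv.refl _ _⟩⟩
  obtain ⟨X, hX⟩ : ∃ X : I → G →ₗ[F] F, ∀ i g,
      X i g = χ i ((φ g).1 + Finsupp.lsum F (p i) (φ g).2) :=
    ⟨fun i => χ i ∘ₗ (LinearMap.fst _ _ _ + Finsupp.lsum F (p i) ∘ₗ LinearMap.snd _ _ _) ∘ₗ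
      φ.toLinearMap, fun _ _ => rfl⟩
  have sub : ∀ (A : Set J), A.Countable → ∀ (ψ : (J →₀ V) →ₗ[F] V × V) (x : V × V), x ≠ 0 →
      ∃ i, χ i x = 1 ∧ ∀ g, ((φ g).2.support : Set J) ⊆ A → X i g = χ i ((φ g).1 + ψ (φ g).2) := by
    intro A hA ψ x hx
    obtain ⟨i, i1, i2⟩ := hu A hA (fun α => ψ ∘ₗ Finsupp.lsingle α) x hx
    refine ⟨i, i1 ▸ c1 i, fun g hg => ?_⟩
    rw [hX]
    congr 2
    conv_rhs => rw [← Finsupp.sum_single (φ g).2, map_finsuppSum]
    rw [Finsupp.lsum_apply]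
    refine Finsupp.sum_congr fun α hα => ?_
    rw [i2 α (hg hα)]
    rfl
  let Φ : G →ₗ[F] I → F := LinearMap.pi X
  have inj : Function.Injective Φ := by
    rw [← LinearMap.ker_eq_bot, LinearMap.ker_eq_bot']
    intro g hg
    by_contra h0
    obtain ⟨ψ, hψ⟩ : ∃ ψ : (J →₀ V) →ₗ[F] V × V, (φ g).1 + ψ (φ g).2 ≠ 0 := by
      by_cases h1 : (φ g).1 = 0
      · have h2 : (φ g).2 ≠ 0 := fun h2 => h0 (φ.map_eq_zero_iff.1 (Prod.ext h1 h2))
        obtain ⟨α, hα⟩ := Finsupp.ne_iff.1 h2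
        exact ⟨LinearMap.inl _ _ _ ∘ₗ Finsupp.lapply α, by simpa [h1] using hα⟩
      · exact ⟨0, by simpa using h1⟩
    obtain ⟨i, i1, i2⟩ := sub _ (φ g).2.support.countable_toSet ψ _ hψ
    have : X i g = 0 := congrFun hg i
    rw [i2 g subset_rfl, i1] at this
    exact one_ne_zero this
  letI : TopologicalSpace G := TopologicalSpace.induced Φ inferInstance
  have ind : IsInducing Φ := ⟨rfl⟩
  have g0 : φ.symm (((Finsupp.single 0 1, 0), 0)) ≠ 0 := by simp
  have nt : Nontrivial G := ⟨_, _, g0⟩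
  have main : DInd (G × G) := by
    refine ⟨inferInstance, fun S hS => ?_⟩
    obtain ⟨α, hα⟩ : ∃ α : J, ∀ s ∈ S, (φ s.1).2 α = 0 ∧ (φ s.2).2 α = 0 := by
      by_contra hc
      push Not at hc
      have h1 : (univ : Set J) ⊆ ⋃ s : S, ((φ s.1.1).2.support ∪ (φ s.1.2).2.support : Finset J) := by
        intro α _
        obtain ⟨s, s1, s2⟩ := hc α
        refine mem_iUnion.2 ⟨⟨s, s1⟩, ?_⟩
        by_cases h : (φ s.1).2 α = 0
        · simp [s2 h]
        · simp [h]
      have h2 := ((mk_le_mk_of_subset h1).trans (mk_iUnion_le _)).trans_lt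
        (mul_lt_of_lt aleph0_le_continuum hS (lt_of_le_of_lt (ciSup_le' fun k =>
          le_aleph0_iff_set_countable.2 (Finset.countable_toSet _)) aleph0_lt_continuum))
      simp [J, F] at h2
    let d : V × V →ₗ[F] G × G :=
      (φ.symm.toLinearMap ∘ₗ ((LinearMap.inl F V V ∘ₗ LinearMap.fst F V V).prod
        (Finsupp.lsingle α ∘ₗ LinearMap.snd F V V))).prod
      (φ.symm.toLinearMap ∘ₗ ((LinearMap.inr F V V ∘ₗ LinearMap.snd F V V).prod
        (Finsupp.lsingle α ∘ₗ LinearMap.fst F V V)))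
    have d1 : ∀ v, φ (d v).1 = ((v.1, 0), Finsupp.single α v.2) := fun v => by simp [d]
    have d2 : ∀ v, φ (d v).2 = ((0, v.2), Finsupp.single α v.1) := fun v => by simp [d]
    refine ⟨(LinearMap.range d).toAddSubgroup, countable_range d, ?_, ?_⟩
    · let Ψ : G × G →ₗ[F] (I ⊕ I → F) := LinearMap.pi
        (Sum.elim (fun i => X i ∘ₗ LinearMap.fst F G G) fun i => X i ∘ₗ LinearMap.snd F G G)
      have ind2 : IsInducing Ψ := by
        have : (Ψ : G × G → I ⊕ I → F) =
            (Homeomorph.sumArrowHomeomorphProdArrow (X := F)).symm ∘ Prod.map Φ Φ := by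
          funext g i
          rcases i with i | i <;> rfl
        rw [this]
        exact (Homeomorph.isInducing _).comp (ind.prodMap ind)
      refine ind2.dense_iff.2 fun x => dens ((LinearMap.range d).map Ψ) (fun s c hc => ?_) _
      obtain ⟨t, ht⟩ : ∃ t : Finset I, s ⊆ t.disjSum t :=
        ⟨s.toLeft ∪ s.toRight, fun i hi => by rcases i with i | i <;> simp [hi]⟩
      obtain ⟨c', k1, k2⟩ : ∃ c' : I ⊕ I → F, (∀ i ∈ s, c' i = c i) ∧ ∀ i ∉ s, c' i = 0 :=
        ⟨fun i => if i ∈ s then c i else 0, fun i h => if_pos h, fun i h => if_neg h⟩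
      have hc' : ∀ v, ∑ i ∈ t, (c' (Sum.inl i) * X i (d v).1 +
          c' (Sum.inr i) * X i (d v).2) = 0 := fun v => by
        have h1 : ∑ i ∈ s, c i * Ψ (d v) i = 0 := hc _ ⟨_, ⟨v, rfl⟩, rfl⟩
        rw [← Finset.sum_congr rfl (fun i hi => by rw [k1 i hi] :
          ∀ i ∈ s, c' i * Ψ (d v) i = c i * Ψ (d v) i), Finset.sum_subset ht
          (fun i _ hi => by rw [k2 i hi, zero_mul]), Finset.sum_disjSum,
          ← Finset.sum_add_distrib] at h1
        exact h1
      have := c2 α t (fun i => c' (Sum.inl i)) (fun i => c' (Sum.inr i)) (LinearMap.ext fun v => by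
          have := hc' (v, 0)
          simp only [hX, d1, d2] at this
          rw [LinearMap.sum_apply, LinearMap.zero_apply, ← this]
          refine Finset.sum_congr rfl fun i _ => ?_
          simp [Prod.mk_zero_zero, -Prod.smul_mk]) (LinearMap.ext fun v => by
          have := hc' (0, v)
          simp only [hX, d1, d2] at this
          rw [LinearMap.sum_apply, LinearMap.zero_apply, ← this]
          refine Finset.sum_congr rfl fun i _ => ?_
          simp [Prod.mk_zero_zero, -Prod.smul_mk])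
      intro i hi
      have k := ht hi
      rw [← k1 i hi]
      rcases i with i | i
      · exact (this i (by simpa using k)).1
      · exact (this i (by simpa using k)).2
    · rw [eq_bot_iff]
      rintro _ ⟨h1, v, rfl⟩
      have := hα _ h1
      rw [d1, d2] at this
      have : v = 0 := Prod.ext (by simpa using this.2) (by simpa using this.1)
      simp [this]
  refine ⟨G, gA, _, topologicalAddGroup_induced Φ, ?_, ?_, main, fun h => ?_⟩
  · exact T2Space.of_injective_continuous inj ind.continuous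
  · obtain ⟨D, D1, D2, -⟩ := main.2 ⊥ (by
      simpa using (one_lt_aleph0.trans aleph0_lt_continuum))
    exact ⟨⟨_, D1.image Prod.fst,
      (Prod.fst_surjective.denseRange).dense_image continuous_fst D2⟩⟩
  · obtain ⟨D, D1, D2, D3⟩ := h.2
      (LinearMap.range (φ.symm.toLinearMap ∘ₗ LinearMap.inl F _ _)).toAddSubgroup
      (lt_of_le_of_lt (le_aleph0_iff_set_countable.2 (countable_range _)) aleph0_lt_continuum)
    obtain ⟨W, hW⟩ : ∃ W : Submodule F G, ∀ x, x ∈ W ↔ x ∈ D :=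
      ⟨AddSubgroup.toZModSubmodule 2 D, fun _ => Iff.rfl⟩
    obtain ⟨L, hL⟩ := LinearMap.exists_leftInverse_of_injective (K := F) (V := W) (V' := J →₀ V)
      (LinearMap.snd F _ _ ∘ₗ φ.toLinearMap ∘ₗ W.subtype) (LinearMap.ker_eq_bot'.2 fun w hw => Subtype.ext (by
        have : w.1 ∈ (⊥ : AddSubgroup G) := by
          rw [← D3]
          exact ⟨⟨(φ w).1, φ.symm_apply_eq.2 (Prod.ext rfl (Eq.symm hw))⟩, (hW _).1 w.2⟩
        exact this))
    obtain ⟨i, i1, i2⟩ := sub (⋃ w ∈ (D : Set G), (φ w).2.support)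
      (D1.biUnion fun w _ => Finset.countable_toSet _)
      (-(LinearMap.fst F _ _ ∘ₗ φ.toLinearMap ∘ₗ W.subtype ∘ₗ L)) (Finsupp.single 0 1, 0) (by simp)
    have : (X i : G → F) = fun _ => 0 := by
      refine Continuous.ext_on D2 ((continuous_apply i).comp ind.continuous) continuous_const
        fun w hw => ?_
      have a : L (φ w).2 = ⟨w, (hW _).2 hw⟩ := LinearMap.congr_fun hL ⟨w, (hW _).2 hw⟩
      rw [i2 w (subset_biUnion_of_mem (u := fun w => ((φ w).2.support : Set J)) hw)]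
      simp [a]
    have b := congrFun this (φ.symm ((Finsupp.single 0 1, 0), 0))
    rw [hX] at b
    simp [i1] at b

end Pool.Agent.Results.MP_23f360_gt.Main
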